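import Pool.Agent.DD.As
import Pool.Agent.DD.Tb
import Pool.Agent.FbT.Nn
import Pool.Agent.FbT.Tt

/-!
# The hypothesis of `main_local` for `Z` cyclic
-/

set_option autoImplicit false

namespace Pool.Agent.DD

open Pool.Agent.Sig Pool.Agent.SigO Pool.Agent.KtU

theorem pkgHyp_cyclic {k : Type} [Field k] [IsAlgClosed k] {Z E : Type} [CommGroup Z] [Fintype Z]
    [CommGroup E] [Fintype E] {θ : E →* MulAut Z} (hc : IsCyclic Z) : PkgHyp k θ := by
  intro R 𝓐 H _ _ _ _ _ Q _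
  have := Q.fd
  obtain ⟨T⟩ := FbT.exists_tt Q fun D => FbT.exists_orth Q.K hc D
  exact T.dbEquiv

end Pool.Agent.DD
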